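import Mathlib

set_option autoImplicit false

/-!
Pro-`p` Cappitt groups: non-abelian ones are periodic.
-/

namespace Pool.Agent.V1128.Cap

universe u

open scoped commutatorElement

/-- A pro-`p` group: a compact Hausdorff totally disconnected topological group in which the index
of every open normal subgroup is a power of `p`. -/
def IsProP (p : ℕ) (G : Type u) [Group G] [TopologicalSpace G] [IsTopologicalGroup G] : Prop :=
  CompactSpace G ∧ T2Space G ∧ TotallyDisconnectedSpace G ∧
    ∀ U : Subgroup G, U.Normal → IsOpen (U : Set G) → ∃ k : ℕ, U.index = p ^ k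

/-- The subgroup `S̃(G)`: the closure of the subgroup generated by all closed subgroups of `G` that
are not normal. -/
def STilde (G : Type u) [Group G] [TopologicalSpace G] [IsTopologicalGroup G] : Subgroup G :=
  (sSup {L : Subgroup G | IsClosed (L : Set G) ∧ ¬ L.Normal}).topologicalClosure

section Basic

variable {G : Type u} [Group G] [TopologicalSpace G] [IsTopologicalGroup G] [CompactSpace G]
  [T2Space G] [TotallyDisconnectedSpace G]

theorem exists_open (x : G) (hx : x ≠ 1) : ∃ U : Subgroup G, U.Normal ∧ IsOpen (U : Set G) ∧ x ∉ U := by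
  have h1 : IsOpen ({x}ᶜ : Set G) := isOpen_compl_singleton
  obtain ⟨V, hV, h1V, hVx⟩ := compact_exists_isClopen_in_isOpen h1 (x := 1) (by simpa using hx.symm)
  obtain ⟨H, hH⟩ := IsTopologicalGroup.exist_openNormalSubgroup_sub_clopen_nhds_of_one hV h1V
  exact ⟨H.toSubgroup, inferInstance, H.isOpen', fun h => hVx (hH h) rfl⟩

theorem eq_of_open {x y : G} (h : ∀ U : Subgroup G, U.Normal → IsOpen (U : Set G) → x⁻¹ * y ∈ U) :
    x = y := by
  by_contra hne
  obtain ⟨U, h1, h2, h3⟩ := exists_open (x⁻¹ * y) (by rwa [ne_eq, inv_mul_eq_one])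
  exact h3 (h U h1 h2)

omit [CompactSpace G] [T2Space G] [TotallyDisconnectedSpace G] in
theorem mem_closure_open {H : Subgroup G} {z : G} (hz : z ∈ H.topologicalClosure) {U : Subgroup G}
    (hU : IsOpen (U : Set G)) : ∃ a ∈ H, a⁻¹ * z ∈ U := by
  have h1 : IsOpen ((fun a : G => a⁻¹ * z) ⁻¹' (U : Set G)) :=
    hU.preimage (by fun_prop)
  obtain ⟨a, ha1, ha2⟩ := mem_closure_iff.mp hz _ h1 (by simp)
  exact ⟨a, ha2, ha1⟩

omit [CompactSpace G] [T2Space G] [TotallyDisconnectedSpace G] in
theorem not_mem_S {g : G} (hg : g ∉ STilde G) : (Subgroup.zpowers g).topologicalClosure.Normal := by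
  by_contra hc
  apply hg
  apply Subgroup.le_topologicalClosure
  have hmem : (Subgroup.zpowers g).topologicalClosure ∈
      {L : Subgroup G | IsClosed (L : Set G) ∧ ¬ L.Normal} :=
    ⟨Subgroup.isClosed_topologicalClosure _, hc⟩
  exact le_sSup hmem (Subgroup.le_topologicalClosure _ (Subgroup.mem_zpowers g))

omit [CompactSpace G] [T2Space G] [TotallyDisconnectedSpace G] in
/-- conjugates of an element outside `S̃` are powers modulo open subgroups -/
theorem conj_pow {g : G} (hg : g ∉ STilde G) (x : G) {U : Subgroup G} (hU : IsOpen (U : Set G)) :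
    ∃ a : ℤ, (g ^ a)⁻¹ * (x * g * x⁻¹) ∈ U := by
  have h1 := (not_mem_S hg).conj_mem g
    (Subgroup.le_topologicalClosure _ (Subgroup.mem_zpowers g)) x
  obtain ⟨a, ⟨k, rfl⟩, h⟩ := mem_closure_open h1 hU
  exact ⟨k, h⟩

/-- commutators commute with the elements outside `S̃` -/
theorem comm_comm {g : G} (hg : g ∉ STilde G) (x y : G) : (x * y) * g * (x * y)⁻¹ = (y * x) * g * (y * x)⁻¹ := by
  apply eq_of_open
  intro U hN hU
  obtain ⟨a, ha⟩ := conj_pow hg x hU
  obtain ⟨b, hb⟩ := conj_pow hg y hU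
  rw [← QuotientGroup.eq] at ha hb ⊢
  simp only [QuotientGroup.mk_mul, QuotientGroup.mk_zpow, QuotientGroup.mk_inv] at ha hb ⊢
  have e1 : (x : G ⧸ U) * (y : G ⧸ U) * (g : G ⧸ U) * ((x : G ⧸ U) * (y : G ⧸ U))⁻¹ =
    x * (y * g * (y : G ⧸ U)⁻¹) * (x : G ⧸ U)⁻¹ := by group
  have e2 : (y : G ⧸ U) * (x : G ⧸ U) * (g : G ⧸ U) * ((y : G ⧸ U) * (x : G ⧸ U))⁻¹ =
    y * (x * g * (x : G ⧸ U)⁻¹) * (y : G ⧸ U)⁻¹ := by group
  rw [e1, e2, ← ha, ← hb, ← conj_zpow, ← conj_zpow, ← ha, ← hb, ← zpow_mul, ← zpow_mul, mul_comm]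

theorem comm_outside {g : G} (hg : g ∉ STilde G) (x y : G) : ⁅x, y⁆ * g = g * ⁅x, y⁆ := by
  have h := comm_comm hg y⁻¹ x⁻¹
  have h' : y⁻¹ * x⁻¹ * g * (y⁻¹ * x⁻¹)⁻¹ = x⁻¹ * y⁻¹ * g * (x⁻¹ * y⁻¹)⁻¹ := h
  rw [commutatorElement_def]
  have e1 : x * y * (y⁻¹ * x⁻¹ * g * (y⁻¹ * x⁻¹)⁻¹) = g * (x * y) := by group
  have e2 : x * y * (x⁻¹ * y⁻¹ * g * (x⁻¹ * y⁻¹)⁻¹) = x * y * x⁻¹ * y⁻¹ * g * (y * x) := by group
  rw [h', e2] at e1
  have e3 : x * y * x⁻¹ * y⁻¹ * g = (x * y * x⁻¹ * y⁻¹ * g * (y * x)) * (y * x)⁻¹ := by group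
  rw [e3, e1]
  group

omit [TopologicalSpace G] [IsTopologicalGroup G] [CompactSpace G] [T2Space G] [TotallyDisconnectedSpace G] in
/-- a property of the elements outside a proper subgroup that is closed under division holds for all -/
theorem outside_ind {S : Subgroup G} (hS : S ≠ ⊤) {Z : Subgroup G} (h : ∀ g, g ∉ S → g ∈ Z) (x : G) :
    x ∈ Z := by
  by_cases hx : x ∈ S
  · obtain ⟨g, hg⟩ : ∃ g, g ∉ S := by
      by_contra hc
      push Not at hc
      exact hS ((Subgroup.eq_top_iff' S).mpr hc)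
    have h1 : x * g ∉ S := fun h2 => hg ((S.mul_mem_cancel_left hx).mp h2)
    have h2 := Z.mul_mem (h _ h1) (Z.inv_mem (h _ hg))
    rwa [mul_inv_cancel_right] at h2
  · exact h x hx

/-- the group has class at most two -/
theorem comm_central (hS : STilde G ≠ ⊤) (x y z : G) : ⁅x, y⁆ * z = z * ⁅x, y⁆ := by
  have := outside_ind hS (Z := Subgroup.centralizer {⁅x, y⁆}) (fun g hg => by
    rw [Subgroup.mem_centralizer_singleton_iff]
    exact (comm_outside hg x y).symm) z
  rw [Subgroup.mem_centralizer_singleton_iff] at this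
  exact this.symm

/-- The commutator is multiplicative in its second argument. -/
theorem comm_mul_right (hS : STilde G ≠ ⊤) (g y z : G) : ⁅g, y * z⁆ = ⁅g, y⁆ * ⁅g, z⁆ := by
  have h := comm_central hS g z y
  rw [commutatorElement_def g (y * z), commutatorElement_def g y]
  have e : g * (y * z) * g⁻¹ * (y * z)⁻¹ = g * y * g⁻¹ * ((g * z * g⁻¹ * z⁻¹) * y⁻¹) := by group
  rw [← commutatorElement_def g z, comm_central hS g z y⁻¹] at e
  rw [e]
  group

theorem comm_mul_left (hS : STilde G ≠ ⊤) (x y z : G) : ⁅x * y, z⁆ = ⁅x, z⁆ * ⁅y, z⁆ := by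
  rw [← commutatorElement_inv, comm_mul_right hS, mul_inv_rev, commutatorElement_inv,
    commutatorElement_inv, comm_central hS]

/-- The homomorphism `y ↦ ⁅g, y⁆`. -/
def kap (hS : STilde G ≠ ⊤) (g : G) : G →* G where
  toFun y := ⁅g, y⁆
  map_one' := by simp
  map_mul' := comm_mul_right hS g

theorem comm_zpow_left (hS : STilde G ≠ ⊤) (g y : G) (n : ℤ) : ⁅g ^ n, y⁆ = ⁅g, y⁆ ^ n := by
  let f : G →* G :=
    { toFun := fun x => ⁅x, y⁆
      map_one' := by simp
      map_mul' := fun a b => comm_mul_left hS a b y }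
  exact map_zpow f g n

omit [CompactSpace G] [T2Space G] [TotallyDisconnectedSpace G] in
/-- the commutators of an element outside `S̃` are powers of it modulo open subgroups -/
theorem comm_pow {g : G} (hg : g ∉ STilde G) (x : G) {U : Subgroup G} (hU : IsOpen (U : Set G)) :
    ∃ a : ℤ, (g ^ a)⁻¹ * ⁅g, x⁆ ∈ U := by
  have h1 := (not_mem_S hg).conj_mem g⁻¹
    (inv_mem (Subgroup.le_topologicalClosure _ (Subgroup.mem_zpowers g))) x
  have h2 := mul_mem (Subgroup.le_topologicalClosure _ (Subgroup.mem_zpowers g)) h1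
  have h3 : g * (x * g⁻¹ * x⁻¹) = ⁅g, x⁆ := by rw [commutatorElement_def]; group
  rw [h3] at h2
  obtain ⟨a, ⟨k, rfl⟩, h⟩ := mem_closure_open h2 hU
  exact ⟨k, h⟩

end Basic

section ProP

variable {G : Type u} [Group G] [TopologicalSpace G] [IsTopologicalGroup G] [CompactSpace G]
  [T2Space G] [TotallyDisconnectedSpace G] {p : ℕ}
  (hp : p.Prime) (hG : ∀ U : Subgroup G, U.Normal → IsOpen (U : Set G) → ∃ k : ℕ, U.index = p ^ k)

include hp hG in
/-- Elements of infinite order outside `S̃` are central. -/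
theorem inf_central (hS : STilde G ≠ ⊤) {g : G} (hg : g ∉ STilde G) (hinf : ¬ IsOfFinOrder g)
    (x : G) : ⁅g, x⁆ = 1 := by
  by_contra hc
  obtain ⟨V, hVn, hVo, hV⟩ := exists_open ⁅g, x⁆ hc
  obtain ⟨k, hk⟩ := hG V hVn hVo
  have hne : g ^ (p ^ (2 * k)) ≠ 1 := by
    intro h
    exact hinf (isOfFinOrder_iff_pow_eq_one.mpr ⟨_, Nat.pow_pos hp.pos, h⟩)
  obtain ⟨W, hWn, hWo, hW⟩ := exists_open _ hne
  have hUn : (W ⊓ V).Normal := inferInstance
  have hUo : IsOpen ((W ⊓ V : Subgroup G) : Set G) := by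
    rw [Subgroup.coe_inf]
    exact hWo.inter hVo
  obtain ⟨l, hl⟩ := hG _ hUn hUo
  obtain ⟨a, ha⟩ := comm_pow hg x hUo
  -- the order of `g` modulo `U`
  have hord : ∃ m, orderOf (g : G ⧸ (W ⊓ V)) = p ^ m := by
    have h1 : (g : G ⧸ (W ⊓ V)) ^ (p ^ l) = 1 := by
      rw [← hl, ← QuotientGroup.mk_pow, QuotientGroup.eq_one_iff]
      exact Subgroup.pow_index_mem _ _
    obtain ⟨m, -, hm⟩ := (Nat.dvd_prime_pow hp).mp (orderOf_dvd_of_pow_eq_one h1)
    exact ⟨m, hm⟩
  obtain ⟨m, hm⟩ := hord
  have hm2 : 2 * k < m := by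
    by_contra hle
    push Not at hle
    have h1 : (g : G ⧸ (W ⊓ V)) ^ (p ^ (2 * k)) = 1 := by
      apply orderOf_dvd_iff_pow_eq_one.mp
      rw [hm]
      exact pow_dvd_pow p hle
    rw [← QuotientGroup.mk_pow, QuotientGroup.eq_one_iff] at h1
    exact hW h1.1
  rw [← QuotientGroup.eq, QuotientGroup.mk_zpow] at ha
  have h2 : (g : G ⧸ (W ⊓ V)) ^ (a * a) = 1 := by
    have e1 : ⁅g ^ a, x⁆ = ⁅g, x⁆ ^ a := comm_zpow_left hS g x a
    have e2 : ⁅⁅g, x⁆, x⁆ = 1 := by
      rw [commutatorElement_eq_one_iff_mul_comm]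
      exact comm_central hS g x x
    have e3 : ((⁅g ^ a, x⁆ : G) : G ⧸ (W ⊓ V)) = ((⁅⁅g, x⁆, x⁆ : G) : G ⧸ (W ⊓ V)) := by
      rw [commutatorElement_def, commutatorElement_def (⁅g, x⁆)]
      simp only [QuotientGroup.mk_mul, QuotientGroup.mk_inv, QuotientGroup.mk_zpow, ha]
    rw [e2, e1, QuotientGroup.mk_zpow, ← ha, ← zpow_mul, QuotientGroup.mk_one] at e3
    exact e3
  have h3 : ((p ^ m : ℕ) : ℤ) ∣ a * a := by
    rw [← hm]
    exact orderOf_dvd_iff_zpow_eq_one.mpr h2
  have h4 : ((p ^ k : ℕ) : ℤ) ∣ a := by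
    have h5 : (p ^ (2 * k)) ∣ a.natAbs * a.natAbs := by
      rw [← Int.natAbs_mul]
      have := Int.natCast_dvd.mp h3
      exact (pow_dvd_pow p hm2.le).trans this
    have h6 : (p ^ k) ^ 2 ∣ a.natAbs ^ 2 := by
      rw [← pow_mul, mul_comm k 2, sq]
      exact h5
    exact Int.natCast_dvd.mpr ((Nat.pow_dvd_pow_iff two_ne_zero).mp h6)
  obtain ⟨b, rfl⟩ := h4
  have h7 : g ^ (((p ^ k : ℕ) : ℤ) * b) ∈ V := by
    rw [zpow_mul, zpow_natCast]
    apply V.zpow_mem
    rw [← hk]
    exact Subgroup.pow_index_mem _ _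
  rw [← QuotientGroup.mk_zpow, QuotientGroup.eq] at ha
  have h8 := V.mul_mem h7 ha.2
  rw [mul_inv_cancel_left] at h8
  exact hV h8

include hp hG in
/-- A pro-`p` group with `S̃(G) ≠ G` that is not abelian is periodic. -/
theorem periodic (hS : STilde G ≠ ⊤) (hna : ∃ x y : G, x * y ≠ y * x) (h : G) : IsOfFinOrder h := by
  by_contra hh
  obtain ⟨x, y, hxy⟩ := hna
  apply hxy
  have key : ∀ g : G, g ∉ STilde G → g ∈ Subgroup.center G := by
    intro g hg
    by_cases hgf : IsOfFinOrder g
    swap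
    · rw [Subgroup.mem_center_iff]
      intro z
      exact (commutatorElement_eq_one_iff_mul_comm.mp (inf_central hp hG hS hg hgf z)).symm
    by_cases hhS : h ∈ STilde G
    · -- `h` lies inside
      have hcl : (Subgroup.zpowers g).Normal := by
        have h1 := not_mem_S hg
        have h2 : (Subgroup.zpowers g).topologicalClosure = Subgroup.zpowers g := by
          apply SetLike.coe_injective
          rw [Subgroup.topologicalClosure_coe]
          apply IsClosed.closure_eq
          have : (Subgroup.zpowers g : Set G).Finite := by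
            exact finite_zpowers.mpr hgf
          exact this.isClosed
        rwa [h2] at h1
      have main : ∀ k : G, ¬ IsOfFinOrder k → k ∈ STilde G → g * k ∈ Subgroup.center G := by
        intro k hk hkS
        have h1 : g * k ∉ STilde G := fun h2 => hg (((STilde G).mul_mem_cancel_right hkS).mp h2)
        have h2 : ¬ IsOfFinOrder (g * k) := by
          intro h3
          apply hk
          obtain ⟨n, hn, h4⟩ := isOfFinOrder_iff_pow_eq_one.mp h3
          have h5 : ((k : G) : G ⧸ Subgroup.zpowers g) ^ n = 1 := by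
            have h6 : ((g * k : G) : G ⧸ Subgroup.zpowers g) = k := by
              rw [QuotientGroup.mk_mul, (QuotientGroup.eq_one_iff g).mpr (Subgroup.mem_zpowers g),
                one_mul]
            rw [← h6, ← QuotientGroup.mk_pow, h4, QuotientGroup.mk_one]
          rw [← QuotientGroup.mk_pow, QuotientGroup.eq_one_iff] at h5
          obtain ⟨j, hj⟩ := h5
          obtain ⟨q, hq, h6⟩ := isOfFinOrder_iff_pow_eq_one.mp hgf
          apply isOfFinOrder_iff_pow_eq_one.mpr
          refine ⟨n * q, Nat.mul_pos hn hq, ?_⟩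
          rw [pow_mul, ← hj]
          change (g ^ j) ^ q = 1
          rw [← zpow_natCast, ← zpow_mul, mul_comm, zpow_mul, zpow_natCast, h6, one_zpow]
        rw [Subgroup.mem_center_iff]
        intro z
        exact (commutatorElement_eq_one_iff_mul_comm.mp (inf_central hp hG hS h1 h2 z)).symm
      have h1 := main h hh hhS
      have h2 := main (h * h) (fun h3 => hh (by
        rw [← sq] at h3
        exact (isOfFinOrder_pow.mp h3).resolve_right (by norm_num))) ((STilde G).mul_mem hhS hhS)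
      have h3 : h ∈ Subgroup.center G := by
        have h4 := (Subgroup.center G).mul_mem ((Subgroup.center G).inv_mem h1) h2
        have h5 : (g * h)⁻¹ * (g * (h * h)) = h := by group
        rwa [h5] at h4
      have h4 := (Subgroup.center G).mul_mem h1 ((Subgroup.center G).inv_mem h3)
      rwa [mul_inv_cancel_right] at h4
    · -- `h` lies outside, so it is central
      have hc : h ∈ Subgroup.center G := by
        rw [Subgroup.mem_center_iff]
        intro z
        exact (commutatorElement_eq_one_iff_mul_comm.mp (inf_central hp hG hS hhS hh z)).symm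
      have main : ∀ k : G, k ∈ Subgroup.center G → ¬ IsOfFinOrder k → k * g ∉ STilde G →
          g ∈ Subgroup.center G := by
        intro k hk hkf hkg
        have h1 : ¬ IsOfFinOrder (k * g) := by
          intro h2
          apply hkf
          have hcomm : Commute (k * g) g⁻¹ := by
            have : Commute k g⁻¹ := (Subgroup.mem_center_iff.mp hk g⁻¹).symm
            exact this.mul_left ((Commute.refl g).inv_right)
          have h3 := hcomm.isOfFinOrder_mul h2 (isOfFinOrder_inv_iff.mpr hgf)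
          rwa [mul_inv_cancel_right] at h3
        have h2 : k * g ∈ Subgroup.center G := by
          rw [Subgroup.mem_center_iff]
          intro z
          exact (commutatorElement_eq_one_iff_mul_comm.mp (inf_central hp hG hS hkg h1 z)).symm
        have h3 := (Subgroup.center G).mul_mem ((Subgroup.center G).inv_mem hk) h2
        rwa [inv_mul_cancel_left] at h3
      by_cases h1 : h * g ∈ STilde G
      · apply main (h * h) ((Subgroup.center G).mul_mem hc hc)
        · intro h3
          rw [← sq] at h3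
          exact hh ((isOfFinOrder_pow.mp h3).resolve_right (by norm_num))
        · intro h2
          rw [mul_assoc] at h2
          exact hhS (((STilde G).mul_mem_cancel_right h1).mp h2)
      · exact main h hc hh h1
  have := outside_ind hS key x
  exact (Subgroup.mem_center_iff.mp this y).symm

end ProP

end Pool.Agent.V1128.Cap
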