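import Mathlib
import Pool.Agent.V1128.Cap.Core

set_option autoImplicit false

/-!
Pro-`p` Cappitt groups: the derived subgroup is finite and cyclic.
-/

namespace Pool.Agent.V1128.Cap

universe u

open scoped commutatorElement Pointwise

section ProP

variable {G : Type u} [Group G] [TopologicalSpace G] [IsTopologicalGroup G] [CompactSpace G]
  [T2Space G] [TotallyDisconnectedSpace G] {p : ℕ}
  (hp : p.Prime) (hG : ∀ U : Subgroup G, U.Normal → IsOpen (U : Set G) → ∃ k : ℕ, U.index = p ^ k)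

include hp hG in
/-- Elements of finite order have order a power of `p`. -/
theorem pow_ord {g : G} (hg : IsOfFinOrder g) : ∃ m : ℕ, g ^ (p ^ m) = 1 := by
  obtain ⟨a, b, hb, hn⟩ := Nat.exists_eq_pow_mul_and_not_dvd (orderOf_pos_iff.mpr hg).ne' p hp.ne_one
  refine ⟨a, ?_⟩
  have h1 : (g ^ (p ^ a)) ^ b = 1 := by rw [← pow_mul, ← hn, pow_orderOf_eq_one]
  rw [eq_comm]
  apply eq_of_open
  intro U hU1 hU2
  obtain ⟨l, hl⟩ := hG U hU1 hU2
  rw [← QuotientGroup.eq, QuotientGroup.mk_one, eq_comm]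
  have h2 : ((g ^ (p ^ a) : G) : G ⧸ U) ^ b = 1 := by
    rw [← QuotientGroup.mk_pow, h1, QuotientGroup.mk_one]
  have h3 : ((g ^ (p ^ a) : G) : G ⧸ U) ^ (p ^ l) = 1 := by
    rw [← hl, ← QuotientGroup.mk_pow, QuotientGroup.eq_one_iff]
    exact Subgroup.pow_index_mem _ _
  have h4 : Nat.Coprime b (p ^ l) := Nat.Coprime.pow_right _ ((Nat.Prime.coprime_iff_not_dvd hp).mpr hb).symm
  have h5 := Nat.dvd_gcd (orderOf_dvd_of_pow_eq_one h2) (orderOf_dvd_of_pow_eq_one h3)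
  rw [h4] at h5
  exact orderOf_eq_one_iff.mp (Nat.dvd_one.mp h5)

/-- The closed derived subgroup. -/
abbrev der (G : Type u) [Group G] [TopologicalSpace G] [IsTopologicalGroup G] : Subgroup G :=
  (commutator G).topologicalClosure

omit [CompactSpace G] [T2Space G] [TotallyDisconnectedSpace G] in
theorem comm_mem_der (x y : G) : ⁅x, y⁆ ∈ der G :=
  Subgroup.le_topologicalClosure _ (Subgroup.commutator_mem_commutator (Subgroup.mem_top x) (Subgroup.mem_top y))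

theorem der_central (hS : STilde G ≠ ⊤) {a : G} (ha : a ∈ der G) (z : G) : a * z = z * a := by
  have h1 : commutator G ≤ Subgroup.centralizer {z} := by
    rw [commutator_def, Subgroup.commutator_le]
    intro x _ y _
    rw [Subgroup.mem_centralizer_singleton_iff]
    exact comm_central hS x y z
  have h2 : IsClosed {a : G | a * z = z * a} := isClosed_eq (by fun_prop) (by fun_prop)
  have h3 : (commutator G : Set G) ⊆ {a : G | a * z = z * a} := by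
    intro x hx
    have := h1 hx
    rwa [Subgroup.mem_centralizer_singleton_iff] at this
  exact (closure_minimal h3 h2) ha

/-- The `p`-th powers of the closed derived subgroup. -/
def PP (p : ℕ) (hS : STilde G ≠ ⊤) : Subgroup G where
  carrier := {x | ∃ a ∈ der G, a ^ p = x}
  one_mem' := ⟨1, one_mem _, one_pow _⟩
  mul_mem' := by
    rintro _ _ ⟨a, ha, rfl⟩ ⟨b, hb, rfl⟩
    exact ⟨a * b, mul_mem ha hb, Commute.mul_pow (der_central hS ha b) p⟩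
  inv_mem' := by
    rintro _ ⟨a, ha, rfl⟩
    exact ⟨a⁻¹, inv_mem ha, inv_pow _ _⟩

theorem PP_normal (hS : STilde G ≠ ⊤) : (PP p hS).Normal := by
  constructor
  rintro _ ⟨a, ha, rfl⟩ z
  refine ⟨a, ha, ?_⟩
  have h1 : Commute (a ^ p) z := Commute.pow_left (der_central hS ha z) p
  rw [mul_assoc, h1.symm.inv_left.eq.symm] 
  group

omit [CompactSpace G] [TotallyDisconnectedSpace G] in
theorem zpowers_closed {g : G} (hg : IsOfFinOrder g) :
    (Subgroup.zpowers g).topologicalClosure = Subgroup.zpowers g := by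
  apply SetLike.coe_injective
  rw [Subgroup.topologicalClosure_coe]
  apply IsClosed.closure_eq
  have : (Subgroup.zpowers g : Set G).Finite := finite_zpowers.mpr hg
  exact this.isClosed

omit [CompactSpace G] [TotallyDisconnectedSpace G] in
theorem comm_mem_zpowers {g : G} (hg : g ∉ STilde G) (hf : IsOfFinOrder g) (x : G) :
    ⁅g, x⁆ ∈ Subgroup.zpowers g := by
  have h1 := not_mem_S hg
  rw [zpowers_closed hf] at h1
  have h2 := h1.conj_mem g⁻¹ (inv_mem (Subgroup.mem_zpowers g)) x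
  have h3 := mul_mem (Subgroup.mem_zpowers g) h2
  have h4 : g * (x * g⁻¹ * x⁻¹) = ⁅g, x⁆ := by rw [commutatorElement_def]; group
  rwa [h4] at h3

include hp hG in
theorem cyc (hS : STilde G ≠ ⊤) {g : G} (hg : g ∉ STilde G) (hf : IsOfFinOrder g) {x : G}
    (hx : ⁅g, x⁆ ∉ PP p hS) (y : G) : ∃ k : ℤ, ⁅g, y⁆ = ⁅g, x⁆ ^ k := by
  have h1 : IsCyclic ((kap hS g).range.subgroupOf (Subgroup.zpowers g)) := inferInstance
  obtain ⟨⟨d', hd⟩, hgen⟩ := h1.exists_generator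
  obtain ⟨z, hz⟩ := hd
  have key : ∀ y : G, ∃ j : ℤ, ⁅g, y⁆ = ⁅g, z⁆ ^ j := by
    intro y
    obtain ⟨j, hj⟩ := hgen ⟨⟨⁅g, y⁆, comm_mem_zpowers hg hf y⟩, ⟨y, rfl⟩⟩
    refine ⟨j, ?_⟩
    have h2 := congrArg (fun w => ((w : Subgroup.zpowers g) : G)) (congrArg Subtype.val hj)
    simp only [SubgroupClass.coe_zpow] at h2
    rw [← h2]
    congr 1
    exact hz.symm
  obtain ⟨i, hi⟩ := key x
  obtain ⟨j, hj⟩ := key y
  obtain ⟨m, hm⟩ := pow_ord hp hG hf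
  have hd1 : ⁅g, z⁆ ^ (p ^ m) = 1 := by
    obtain ⟨k, hk⟩ := comm_mem_zpowers hg hf z
    rw [← hk]
    change (g ^ k) ^ (p ^ m) = 1
    rw [← zpow_natCast, ← zpow_mul, mul_comm, zpow_mul, zpow_natCast, hm, one_zpow]
  have hpi : ¬ (p : ℤ) ∣ i := by
    rintro ⟨t, rfl⟩
    apply hx
    refine ⟨⁅g, z⁆ ^ t, zpow_mem (comm_mem_der g z) _, ?_⟩
    rw [hi, mul_comm, zpow_mul, zpow_natCast]
  have hcop : IsCoprime i ((p ^ m : ℕ) : ℤ) := by
    push_cast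
    apply IsCoprime.pow_right
    exact ((Nat.prime_iff_prime_int.mp hp).coprime_iff_not_dvd.mpr hpi).symm
  obtain ⟨u, v, huv⟩ := hcop
  refine ⟨u * j, ?_⟩
  have h5 : ⁅g, z⁆ = ⁅g, x⁆ ^ u := by
    rw [hi, ← zpow_mul]
    have : i * u = 1 - ((p ^ m : ℕ) : ℤ) * v := by linear_combination huv
    rw [this, zpow_sub, zpow_one, zpow_mul, zpow_natCast, hd1, one_zpow, inv_one, mul_one]
  rw [hj, h5, ← zpow_mul]

/-- The subgroup `⟨c⟩ P`. -/
abbrev DD (p : ℕ) (hS : STilde G ≠ ⊤) (c : G) : Subgroup G := Subgroup.zpowers c ⊔ PP p hS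

include hp hG in
theorem claim2 (hS : STilde G ≠ ⊤) (hper : ∀ g : G, IsOfFinOrder g) {g₀ x₀ : G}
    (hg₀ : g₀ ∉ STilde G) (hx₀ : x₀ ∉ STilde G) (hc : ⁅g₀, x₀⁆ ∉ PP p hS) {g' y : G}
    (hg' : g' ∉ STilde G) (hy : y ∉ STilde G) : ⁅g', y⁆ ∈ DD p hS ⁅g₀, x₀⁆ := by
  by_contra hcon
  have hsymm : ∀ {x y : G}, ⁅x, y⁆ ∉ PP p hS → ⁅y, x⁆ ∉ PP p hS := by
    intro x y h1 h2
    apply h1
    rw [← commutatorElement_inv]
    exact inv_mem h2
  have hle : PP p hS ≤ DD p hS ⁅g₀, x₀⁆ := le_sup_right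
  have hcc : ⁅g₀, x₀⁆ ∈ DD p hS ⁅g₀, x₀⁆ := (le_sup_left : Subgroup.zpowers _ ≤ _) (Subgroup.mem_zpowers _)
  have hsD : ∀ {x y : G}, ⁅x, y⁆ ∈ DD p hS ⁅g₀, x₀⁆ → ⁅y, x⁆ ∈ DD p hS ⁅g₀, x₀⁆ := by
    intro x y h
    rw [← commutatorElement_inv x y]
    exact inv_mem h
  -- powers
  have hpw : ∀ {g x y : G}, g ∉ STilde G → ⁅g, x⁆ ∉ PP p hS → ⁅g, x⁆ ∈ DD p hS ⁅g₀, x₀⁆ →
      ⁅g, y⁆ ∈ DD p hS ⁅g₀, x₀⁆ := by
    intro g x y h1 h2 h3
    obtain ⟨k, hk⟩ := cyc hp hG hS h1 (hper g) h2 y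
    rw [hk]
    exact zpow_mem h3 k
  have hg₀D : ∀ y : G, ⁅g₀, y⁆ ∈ DD p hS ⁅g₀, x₀⁆ := fun y => hpw hg₀ hc hcc
  have hx₀D : ∀ y : G, ⁅x₀, y⁆ ∈ DD p hS ⁅g₀, x₀⁆ := fun y => hpw hx₀ (hsymm hc) (hsD hcc)
  have e1 : ⁅g₀, g'⁆ ∈ PP p hS := by
    by_contra h
    exact hcon (hpw hg' (hsymm h) (hsD (hg₀D g')))
  have e2 : ⁅x₀, g'⁆ ∈ PP p hS := by
    by_contra h
    exact hcon (hpw hg' (hsymm h) (hsD (hx₀D g')))
  have e3 : ⁅g₀, y⁆ ∈ PP p hS := by
    by_contra h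
    exact hcon (hsD (hpw hy (hsymm h) (hsD (hg₀D y))))
  have e4 : ⁅x₀, y⁆ ∈ PP p hS := by
    by_contra h
    exact hcon (hsD (hpw hy (hsymm h) (hsD (hx₀D y))))
  -- the element `u`
  obtain ⟨u, hu, hu1, hu2⟩ : ∃ u : G, u ∉ STilde G ∧ (∃ a ∈ PP p hS, ⁅u, x₀⁆ = ⁅g₀, x₀⁆ * a) ∧
      ∃ a ∈ PP p hS, ⁅u, y⁆ = ⁅g', y⁆ * a := by
    have f1 : ⁅g₀ * g', x₀⁆ = ⁅g₀, x₀⁆ * ⁅g', x₀⁆ := comm_mul_left hS _ _ _
    have f2 : ⁅g₀ * g', y⁆ = ⁅g', y⁆ * ⁅g₀, y⁆ := by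
      rw [comm_mul_left hS, comm_central hS]
    have f3 : ⁅g', x₀⁆ ∈ PP p hS := by
      rw [← commutatorElement_inv]
      exact inv_mem e2
    by_cases h : g₀ * g' ∈ STilde G
    · refine ⟨g₀ * g' * x₀, fun h2 => hx₀ (((STilde G).mul_mem_cancel_left h).mp h2),
        ⟨_, f3, ?_⟩, ⟨⁅g₀, y⁆ * ⁅x₀, y⁆, mul_mem e3 e4, ?_⟩⟩
      · rw [comm_mul_left hS, f1, commutatorElement_self, mul_one]
      · rw [comm_mul_left hS, f2, mul_assoc]
    · exact ⟨g₀ * g', h, ⟨_, f3, f1⟩, ⟨_, e3, f2⟩⟩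
  obtain ⟨a, ha, hu1⟩ := hu1
  obtain ⟨b, hb, hu2⟩ := hu2
  have k1 : ⁅u, x₀⁆ ∉ PP p hS := by
    intro h
    rw [hu1] at h
    exact hc (((PP p hS).mul_mem_cancel_right ha).mp h)
  have k2 : ⁅u, x₀⁆ ∈ DD p hS ⁅g₀, x₀⁆ := by
    rw [hu1]
    exact mul_mem hcc (hle ha)
  have k3 := hpw (y := y) hu k1 k2
  rw [hu2] at k3
  exact hcon (((DD p hS ⁅g₀, x₀⁆).mul_mem_cancel_right (hle hb)).mp k3)

include hp hG in
/-- The derived subgroup lies in `⟨c⟩ P` for some commutator `c`. -/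
theorem exists_c (hS : STilde G ≠ ⊤) (hper : ∀ g : G, IsOfFinOrder g) :
    ∃ c ∈ der G, ∀ x y : G, ⁅x, y⁆ ∈ DD p hS c := by
  have red : ∀ K : Subgroup G, (∀ g y : G, g ∉ STilde G → y ∉ STilde G → ⁅g, y⁆ ∈ K) →
      ∀ x y : G, ⁅x, y⁆ ∈ K := by
    intro K hK x y
    have h1 : ∀ g : G, g ∉ STilde G → ∀ y : G, ⁅g, y⁆ ∈ K := by
      intro g hg y
      exact outside_ind hS (Z := K.comap (kap hS g)) (fun y hy => hK g y hg hy) y
    have h2 : ∀ x : G, ⁅y, x⁆ ∈ K := by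
      intro x
      refine outside_ind hS (Z := K.comap (kap hS y)) (fun g hg => ?_) x
      change ⁅y, g⁆ ∈ K
      rw [← commutatorElement_inv]
      exact inv_mem (h1 g hg y)
    rw [← commutatorElement_inv]
    exact inv_mem (h2 x)
  by_cases h : ∃ g₀ x₀ : G, g₀ ∉ STilde G ∧ x₀ ∉ STilde G ∧ ⁅g₀, x₀⁆ ∉ PP p hS
  · obtain ⟨g₀, x₀, h1, h2, h3⟩ := h
    exact ⟨_, comm_mem_der g₀ x₀, red _ fun g y hg hy => claim2 hp hG hS hper h1 h2 h3 hg hy⟩
  · refine ⟨1, one_mem _, red _ fun g y hg hy => ?_⟩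
    by_contra hc
    exact h ⟨g, y, hg, hy, fun h2 => hc ((le_sup_right : PP p hS ≤ _) h2)⟩

include hp hG in
theorem der_eq (hS : STilde G ≠ ⊤) (hper : ∀ g : G, IsOfFinOrder g) :
    ∃ c : G, der G = Subgroup.zpowers c := by
  obtain ⟨c, hc, hcD⟩ := exists_c hp hG hS hper
  have hn := PP_normal (p := p) hS
  have hDset : (DD p hS c : Set G) = (Subgroup.zpowers c : Set G) * (PP p hS : Set G) :=
    Subgroup.mul_normal _ _
  have hPc : IsCompact (PP p hS : Set G) := by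
    have : (PP p hS : Set G) = (fun a : G => a ^ p) '' (der G : Set G) := by
      ext x
      rfl
    rw [this]
    exact ((Subgroup.isClosed_topologicalClosure _).isCompact).image (by fun_prop)
  have hclosed : IsClosed (DD p hS c : Set G) := by
    rw [hDset]
    exact (((finite_zpowers.mpr (hper c)).isCompact).mul hPc).isClosed
  have hle : der G ≤ DD p hS c := by
    apply Subgroup.topologicalClosure_minimal _ _ hclosed
    rw [commutator_def, Subgroup.commutator_le]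
    intro x _ y _
    exact hcD x y
  have hdec : ∀ a ∈ der G, ∃ (i : ℤ), ∃ b ∈ der G, a = c ^ i * b ^ p := by
    intro a ha
    have h1 : a ∈ (DD p hS c : Set G) := hle ha
    rw [hDset] at h1
    obtain ⟨_, ⟨i, rfl⟩, _, ⟨b, hb, rfl⟩, h2⟩ := h1
    exact ⟨i, b, hb, h2.symm⟩
  have hdec' : ∀ k : ℕ, ∀ a ∈ der G, ∃ (i : ℤ), ∃ b ∈ der G, a = c ^ i * b ^ (p ^ k) := by
    intro k
    induction k with
    | zero => intro a ha; exact ⟨0, a, ha, by simp⟩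
    | succ k ih =>
      intro a ha
      obtain ⟨i, b, hb, h1⟩ := ih a ha
      obtain ⟨j, b', hb', h2⟩ := hdec b hb
      refine ⟨i + j * (p ^ k : ℕ), b', hb', ?_⟩
      have hcm : Commute (c ^ j) (b' ^ p) := der_central hS (zpow_mem hc j) _
      rw [h1, h2, hcm.mul_pow, ← pow_mul, ← pow_succ', zpow_add, zpow_mul, zpow_natCast, mul_assoc]
  refine ⟨c, le_antisymm ?_ ?_⟩
  · intro a ha
    rw [← zpowers_closed (hper c)]
    change a ∈ closure (Subgroup.zpowers c : Set G)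
    rw [mem_closure_iff]
    intro O hO haO
    have h1 : IsOpen ((fun z : G => a * z) ⁻¹' O) := hO.preimage (by fun_prop)
    obtain ⟨V, hV, h1V, hVx⟩ := compact_exists_isClopen_in_isOpen h1 (x := 1) (by simpa using haO)
    obtain ⟨H, hH⟩ := IsTopologicalGroup.exist_openNormalSubgroup_sub_clopen_nhds_of_one hV h1V
    obtain ⟨l, hl⟩ := hG H.toSubgroup inferInstance H.isOpen'
    obtain ⟨i, b, hb, h2⟩ := hdec' l a ha
    have h3 : b ^ (p ^ l) ∈ H.toSubgroup := by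
      rw [← hl]
      exact Subgroup.pow_index_mem _ _
    have h4 : a⁻¹ * c ^ i ∈ H.toSubgroup := by
      have h5 : Commute (c ^ i) (b ^ (p ^ l)) := der_central hS (zpow_mem hc i) _
      rw [h2, h5.eq, mul_inv_rev, mul_assoc]
      have h6 : (c ^ i)⁻¹ * ((b ^ (p ^ l))⁻¹ * c ^ i) = (b ^ (p ^ l))⁻¹ := by
        rw [← h5.symm.inv_left.eq.symm]
        group
      rw [h6]
      exact inv_mem h3
    have h6 : a * (a⁻¹ * c ^ i) ∈ O := hVx (hH h4)
    rw [mul_inv_cancel_left] at h6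
    exact ⟨c ^ i, h6, ⟨i, rfl⟩⟩
  · rw [Subgroup.zpowers_le]
    exact hc

end ProP

end Pool.Agent.V1128.Cap
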